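import Pool.Agent.Helper29.E3.St1

set_option autoImplicit false

namespace Pool.Agent.Helper69.E3

open Finset ArithmeticFunction
open Pool.Agent.Helper29.E3 Pool.Agent.Helper49.PC
open Pool.Agent.Helper48.BK (ex th lz Vz Pz gs nd Apx AdN Sol thd)

lemma nd_nonneg_GON (t : ℝ) : 0 ≤ nd t := abs_nonneg _

lemma nd_le_GON (t : ℝ) (n : ℤ) : nd t ≤ |t - n| := by
  unfold nd
  exact round_le t n

lemma nd_int_add_GON (n : ℤ) (δ : ℝ) (h : |δ| ≤ 1 / 2) : nd (n + δ) = |δ| := by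
  apply le_antisymm
  · have := nd_le_GON ((n : ℝ) + δ) n
    simpa using this
  · unfold nd
    by_cases hm : round ((n : ℝ) + δ) = n
    · rw [hm]
      simp
    · have h1 : (1 : ℝ) ≤ |((n - round ((n : ℝ) + δ) : ℤ) : ℝ)| := by
        have h2 : n - round ((n : ℝ) + δ) ≠ 0 := fun h0 => hm (by omega)
        have h3 := Int.one_le_abs h2
        exact_mod_cast h3
      have h4 : |((n - round ((n : ℝ) + δ) : ℤ) : ℝ)| ≤
          |(n : ℝ) + δ - round ((n : ℝ) + δ)| + |δ| := by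
        have h5 : ((n - round ((n : ℝ) + δ) : ℤ) : ℝ) =
            ((n : ℝ) + δ - round ((n : ℝ) + δ)) - δ := by
          push_cast
          ring
        rw [h5]
        exact abs_sub _ _
      linarith

lemma nd_add_GON (x y : ℝ) : nd x - |y| ≤ nd (x + y) := by
  have h1 := nd_le_GON x (round (x + y))
  have h2 : |x - round (x + y)| ≤ |x + y - round (x + y)| + |y| := by
    have h5 : x - round (x + y) = (x + y - round (x + y)) - y := by ring
    rw [h5]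
    exact abs_sub _ _
  have h3 : nd (x + y) = |x + y - round (x + y)| := rfl
  rw [h3]
  linarith

lemma nd_frac_GON (k q : ℕ) (h : ℤ) (hq : 1 ≤ q) (hc : IsCoprime h (q : ℤ)) (hk : ¬ q ∣ k) :
    1 / (q : ℝ) ≤ nd ((k : ℝ) * ((h : ℝ) / q)) := by
  have hq0 : (0 : ℝ) < q := by exact_mod_cast hq
  unfold nd
  set m := round ((k : ℝ) * ((h : ℝ) / q)) with hm
  have h1 : (k : ℤ) * h - m * q ≠ 0 := by
    intro h0
    apply hk
    have h2 : (q : ℤ) ∣ (k : ℤ) * h := ⟨m, by linarith⟩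
    have h3 : (q : ℤ) ∣ (k : ℤ) := hc.symm.dvd_of_dvd_mul_right h2
    exact_mod_cast h3
  have h4 : (1 : ℝ) ≤ |(((k : ℤ) * h - m * q : ℤ) : ℝ)| := by
    have := Int.one_le_abs h1
    exact_mod_cast this
  have h5 : (k : ℝ) * ((h : ℝ) / q) - m = (((k : ℤ) * h - m * q : ℤ) : ℝ) / q := by
    push_cast
    field_simp
  rw [h5, abs_div, abs_of_pos hq0]
  exact div_le_div_of_nonneg_right h4 hq0.le

lemma gs_nonneg_GON (N t : ℝ) (hN : 0 ≤ N) : 0 ≤ gs N t := by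
  unfold gs
  split_ifs
  · exact hN
  · exact one_div_nonneg.mpr (nd_nonneg_GON t)

/-- multiples of `q` -/
lemma mult_GON (k q Q J : ℕ) (h : ℤ) (X β : ℝ) (hq : 1 ≤ q) (hk1 : 1 ≤ k) (hkJ : k ≤ J)
    (hJQ : 2 * J ≤ Q) (hδ : |β - h / q| ≤ 1 / (q * Q)) (hd : q ∣ k) :
    gs (X / k) (k * β) = 1 / (k : ℝ) * gs X (β - h / q) := by
  obtain ⟨t, rfl⟩ := hd
  have hq0 : (0 : ℝ) < q := by exact_mod_cast hq
  have hk0 : (0 : ℝ) < ((q * t : ℕ) : ℝ) := by exact_mod_cast hk1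
  have hQ0 : (0 : ℝ) < Q := by
    have : 0 < Q := by omega
    exact_mod_cast this
  have hkQ : ((q * t : ℕ) : ℝ) ≤ Q / 2 := by
    have h1 : 2 * (q * t) ≤ Q := by omega
    have h2 : (2 : ℝ) * ((q * t : ℕ) : ℝ) ≤ Q := by exact_mod_cast h1
    linarith
  have hq1 : (1 : ℝ) ≤ q := by exact_mod_cast hq
  have hkδ : ((q * t : ℕ) : ℝ) * |β - h / q| ≤ 1 / 2 := by
    calc ((q * t : ℕ) : ℝ) * |β - h / q| ≤ Q / 2 * (1 / (q * Q)) :=
          mul_le_mul hkQ hδ (abs_nonneg _) (by positivity)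
      _ = 1 / (2 * q) := by field_simp
      _ ≤ 1 / 2 := one_div_le_one_div_of_le (by norm_num) (by linarith)
  have hδ2 : |β - h / q| ≤ 1 / 2 := by
    refine le_trans ?_ hkδ
    have h1 : (1 : ℝ) ≤ ((q * t : ℕ) : ℝ) := by exact_mod_cast hk1
    exact le_mul_of_one_le_left (abs_nonneg _) h1
  have e1 : ((q * t : ℕ) : ℝ) * β = ((t * h : ℤ) : ℝ) + ((q * t : ℕ) : ℝ) * (β - h / q) := by
    push_cast
    field_simp
    ring
  have e2 : nd (((q * t : ℕ) : ℝ) * β) = ((q * t : ℕ) : ℝ) * |β - h / q| := by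
    rw [e1, nd_int_add_GON _ _ (by rw [abs_mul, abs_of_pos hk0]; exact hkδ), abs_mul,
      abs_of_pos hk0]
  have e3 : nd (β - h / q) = |β - h / q| := by
    have := nd_int_add_GON 0 (β - h / q) hδ2
    simpa using this
  unfold gs
  rw [e2, e3]
  have e4 : X / ((q * t : ℕ) : ℝ) * (((q * t : ℕ) : ℝ) * |β - h / q|) = X * |β - h / q| := by
    field_simp
  rw [e4]
  split_ifs
  · rw [div_eq_mul_inv, one_div, mul_comm]
  · rw [one_div_mul_one_div]

/-- the other numbers -/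
lemma rest_GON (k q Q J : ℕ) (h : ℤ) (X β : ℝ) (hq : 1 ≤ q) (hk1 : 1 ≤ k) (hkJ : k ≤ J)
    (hJQ : 2 * J ≤ Q) (hc : IsCoprime h (q : ℤ)) (hδ : |β - h / q| ≤ 1 / (q * Q))
    (hd : ¬ q ∣ k) :
    gs (X / k) (k * β) ≤ 2 * gs (2 * (q : ℝ)) (k * ((h : ℝ) / q)) := by
  have hq0 : (0 : ℝ) < q := by exact_mod_cast hq
  have hk0 : (0 : ℝ) < (k : ℝ) := by exact_mod_cast hk1
  have hQ0 : (0 : ℝ) < Q := by
    have : 0 < Q := by omega
    exact_mod_cast this
  have hkQ : (k : ℝ) ≤ Q / 2 := by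
    have h1 : 2 * k ≤ Q := by omega
    have h2 : (2 : ℝ) * (k : ℝ) ≤ Q := by exact_mod_cast h1
    linarith
  have hkδ : (k : ℝ) * |β - h / q| ≤ 1 / (2 * q) := by
    calc (k : ℝ) * |β - h / q| ≤ Q / 2 * (1 / (q * Q)) :=
          mul_le_mul hkQ hδ (abs_nonneg _) (by positivity)
      _ = 1 / (2 * q) := by field_simp
  have hlow := nd_frac_GON k q h hq hc hd
  set ν := nd ((k : ℝ) * ((h : ℝ) / q)) with hν
  have e1 : (k : ℝ) * β = (k : ℝ) * ((h : ℝ) / q) + (k : ℝ) * (β - h / q) := by ring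
  have h2 : ν - (k : ℝ) * |β - h / q| ≤ nd ((k : ℝ) * β) := by
    have := nd_add_GON ((k : ℝ) * ((h : ℝ) / q)) ((k : ℝ) * (β - h / q))
    rw [abs_mul, abs_of_pos hk0] at this
    rw [e1]
    exact this
  have hhalf : (1 : ℝ) / (2 * q) = 1 / q / 2 := by field_simp
  have hν0 : 0 < ν := lt_of_lt_of_le (by positivity) hlow
  have h3 : ν / 2 ≤ nd ((k : ℝ) * β) := by
    have : (1 : ℝ) / (2 * q) ≤ ν / 2 := by
      rw [hhalf]
      linarith
    linarith
  have h4 : 0 < nd ((k : ℝ) * β) := lt_of_lt_of_le (by linarith) h3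
  have h5 : gs (X / k) (k * β) ≤ 1 / nd ((k : ℝ) * β) := by
    unfold gs
    split_ifs with hi
    · rw [le_div_iff₀ h4]
      exact hi
    · exact le_rfl
  have h6 : gs (2 * (q : ℝ)) (k * ((h : ℝ) / q)) = 1 / ν := by
    unfold gs
    rw [if_neg]
    rw [not_le]
    have : (2 : ℝ) * q * (1 / q) ≤ 2 * q * ν := mul_le_mul_of_nonneg_left hlow (by positivity)
    have h7 : (2 : ℝ) * q * (1 / q) = 2 := by field_simp
    linarith
  rw [h6]
  calc gs (X / k) (k * β) ≤ 1 / nd ((k : ℝ) * β) := h5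
    _ ≤ 1 / (ν / 2) := one_div_le_one_div_of_le (by linarith) h3
    _ = 2 * (1 / ν) := by field_simp

lemma harm_GON (J : ℕ) : ∑ t ∈ Icc 1 J, 1 / (t : ℝ) ≤ 1 + Real.log J := by
  have h1 := harmonic_le_one_add_log J
  rw [harmonic_eq_sum_Icc] at h1
  push_cast at h1
  simpa [one_div] using h1

lemma sum_mult_GON (J q : ℕ) (hq : 1 ≤ q) :
    ∑ k ∈ (Icc 1 J).filter (fun k => q ∣ k), 1 / (k : ℝ) ≤ (1 + Real.log J) / q := by
  have hq0 : (0 : ℝ) < q := by exact_mod_cast hq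
  have h1 : (Icc 1 J).filter (fun k => q ∣ k) ⊆ (Icc 1 J).image (fun t => q * t) := by
    intro k hk
    rw [mem_filter, mem_Icc] at hk
    obtain ⟨⟨hk1, hkJ⟩, t, rfl⟩ := hk
    rw [mem_image]
    refine ⟨t, ?_, rfl⟩
    rw [mem_Icc]
    constructor
    · rcases Nat.eq_zero_or_pos t with h0 | h0
      · subst h0
        simp at hk1
      · exact h0
    · exact (Nat.le_mul_of_pos_left t hq).trans hkJ
  have h2 : ∑ k ∈ (Icc 1 J).filter (fun k => q ∣ k), 1 / (k : ℝ) ≤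
      ∑ k ∈ (Icc 1 J).image (fun t => q * t), 1 / (k : ℝ) :=
    sum_le_sum_of_subset_of_nonneg h1 (fun k _ _ => by positivity)
  have h3 : ∑ k ∈ (Icc 1 J).image (fun t => q * t), 1 / (k : ℝ) =
      ∑ t ∈ Icc 1 J, 1 / ((q * t : ℕ) : ℝ) := by
    apply sum_image
    intro x _ y _ hxy
    exact Nat.eq_of_mul_eq_mul_left hq hxy
  have h4 : ∑ t ∈ Icc 1 J, 1 / ((q * t : ℕ) : ℝ) = (∑ t ∈ Icc 1 J, 1 / (t : ℝ)) / q := by
    rw [sum_div]
    apply sum_congr rfl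
    intro t _
    push_cast
    rw [mul_comm, ← div_div]
  rw [h3, h4] at h2
  exact h2.trans (div_le_div_of_nonneg_right (harm_GON J) hq0.le)

theorem hGON (hGeo2 : Pool.Agent.Helper48.BK.StGeo2) : StGON := by
  obtain ⟨C₂, hC₂, hG⟩ := hGeo2
  refine ⟨9 * C₂, by positivity, ?_⟩
  intro J q Q h X β hq hqQ hJ hJQ hc hδ hX
  have hq0 : (0 : ℝ) < q := by exact_mod_cast hq
  have hq1 : (1 : ℝ) ≤ q := by exact_mod_cast hq
  have hg0 : 0 ≤ gs X (β - h / q) := gs_nonneg_GON _ _ hX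
  rw [← sum_filter_add_sum_filter_not (Icc 1 J) (fun k => q ∣ k)]
  apply add_le_add
  · have h1 : ∑ k ∈ (Icc 1 J).filter (fun k => q ∣ k), gs (X / k) (k * β) =
        (∑ k ∈ (Icc 1 J).filter (fun k => q ∣ k), 1 / (k : ℝ)) * gs X (β - h / q) := by
      rw [sum_mul]
      apply sum_congr rfl
      intro k hk
      rw [mem_filter, mem_Icc] at hk
      exact mult_GON k q Q J h X β hq hk.1.1 hk.1.2 hJQ hδ hk.2
    rw [h1]
    exact mul_le_mul_of_nonneg_right (sum_mult_GON J q hq) hg0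
  · have h1 : ∑ k ∈ (Icc 1 J).filter (fun k => ¬ q ∣ k), gs (X / k) (k * β) ≤
        ∑ k ∈ (Icc 1 J).filter (fun k => ¬ q ∣ k), 2 * gs (2 * (q : ℝ)) (k * ((h : ℝ) / q)) := by
      apply sum_le_sum
      intro k hk
      rw [mem_filter, mem_Icc] at hk
      exact rest_GON k q Q J h X β hq hk.1.1 hk.1.2 hJQ hc hδ hk.2
    have h2 : ∑ k ∈ (Icc 1 J).filter (fun k => ¬ q ∣ k),
        2 * gs (2 * (q : ℝ)) (k * ((h : ℝ) / q)) ≤
        ∑ k ∈ Icc 1 J, 2 * gs (2 * (q : ℝ)) (k * ((h : ℝ) / q)) :=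
      sum_le_sum_of_subset_of_nonneg (filter_subset _ _)
        (fun k _ _ => mul_nonneg (by norm_num) (gs_nonneg_GON _ _ (by positivity)))
    have h3 := hG J q (2 * (q : ℝ)) h ((h : ℝ) / q) (by linarith)
      ⟨hq, hc, by rw [sub_self, abs_zero]; positivity⟩
    have hlq : Real.log q ≤ Real.log Q := by
      apply Real.log_le_log hq0
      exact_mod_cast hqQ
    have hlq0 : 0 ≤ Real.log q := Real.log_nonneg hq1
    have h4 : C₂ * ((J : ℝ) / q + 1) * (2 * q + q * (1 + Real.log q)) =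
        C₂ * ((J + q) * (3 + Real.log q)) := by
      field_simp
      ring
    have h5 : ((J : ℝ) + q) * (3 + Real.log q) ≤ (3 / 2 * Q) * (3 * (1 + Real.log Q)) := by
      apply mul_le_mul
      · have h6 : (2 : ℝ) * J ≤ Q := by exact_mod_cast hJQ
        have h7 : (q : ℝ) ≤ Q := by exact_mod_cast hqQ
        linarith
      · linarith
      · linarith
      · positivity
    have h8 : ∑ k ∈ Icc 1 J, 2 * gs (2 * (q : ℝ)) (k * ((h : ℝ) / q)) =
        2 * ∑ k ∈ Icc 1 J, gs (2 * (q : ℝ)) (k * ((h : ℝ) / q)) := (mul_sum _ _ _).symm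
    have h6 : 2 * ∑ k ∈ Icc 1 J, gs (2 * (q : ℝ)) (k * ((h : ℝ) / q)) ≤
        9 * C₂ * Q * (1 + Real.log Q) := by
      rw [h4] at h3
      have h7 := mul_le_mul_of_nonneg_left h5 hC₂.le
      nlinarith
    exact h1.trans (h2.trans (h8.le.trans h6))

end Pool.Agent.Helper69.E3
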